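import Pool.Agent.H88.CM.Targets

/-! CLSL: the local closeness estimate. -/

open Set Function Topology Metric Filter
open scoped Manifold
open Pool.Agent.H88.CL Pool.Agent.H88.CM

namespace Pool.Agent.H20.CM

theorem pf_CLSL : T_CLSL := by
  intro d L r Θ c K σ β γ u hL hΘ hb hlp hu hβ
  have hL0 : 0 ≤ L := by linarith
  have hud : ∀ v, DifferentiableAt ℝ u v := fun v => (hu.c2.differentiable (by norm_num)) v
  have hβ0 : 0 ≤ β := le_trans (norm_nonneg _) (hu.b 0)
  have hin : ∀ v, ‖v - c‖ + σ < r → v ∈ ball c r ∧ v + u v ∈ ball c r := by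
    intro v hv
    have h1 := hu.s v
    have h0 := norm_nonneg (u v)
    rw [mem_ball, mem_ball, dist_eq_norm, dist_eq_norm]
    refine ⟨by linarith, ?_⟩
    have e1 : v + u v - c = (v - c) + u v := by abel
    rw [e1]
    have := norm_add_le (v - c) (u v)
    linarith
  have hΘd : ∀ x ∈ ball c r, DifferentiableAt ℝ Θ x := fun x hx =>
    (hΘ.differentiableOn (by norm_num)).differentiableAt (isOpen_ball.mem_nhds hx)
  have hfd : ∀ v, ‖v - c‖ + σ < r → fderiv ℝ (fun v => Θ (v + u v)) v - fderiv ℝ Θ v =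
      (fderiv ℝ Θ (v + u v) - fderiv ℝ Θ v) + (fderiv ℝ Θ (v + u v)).comp (fderiv ℝ u v) := by
    intro v hv
    obtain ⟨h1, h2⟩ := hin v hv
    have g1 : HasFDerivAt (fun v => v + u v) (ContinuousLinearMap.id ℝ (E d) + fderiv ℝ u v) v :=
      (hasFDerivAt_id v).add (hud v).hasFDerivAt
    have g2 : HasFDerivAt (fun v => Θ (v + u v))
        ((fderiv ℝ Θ (v + u v)).comp (ContinuousLinearMap.id ℝ (E d) + fderiv ℝ u v)) v :=
      HasFDerivAt.comp v (g := Θ) (hΘd _ h2).hasFDerivAt g1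
    rw [g2.fderiv, ContinuousLinearMap.comp_add, ContinuousLinearMap.comp_id]
    abel
  have hA : ∀ v, ‖v - c‖ + σ < r → ‖fderiv ℝ Θ (v + u v) - fderiv ℝ Θ v‖ ≤ L * σ := by
    intro v hv
    obtain ⟨h1, h2⟩ := hin v hv
    have h3 := hlp _ h2 _ h1
    rw [add_sub_cancel_left] at h3
    exact h3.trans (mul_le_mul_of_nonneg_left (hu.s v) hL0)
  have hB : ∀ v, ‖v - c‖ + σ < r →
      ‖(fderiv ℝ Θ (v + u v)).comp (fderiv ℝ u v)‖ ≤ L * β := by
    intro v hv
    obtain ⟨h1, h2⟩ := hin v hv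
    refine (ContinuousLinearMap.opNorm_comp_le _ _).trans ?_
    exact mul_le_mul (hb _ h2) (hu.b v) (norm_nonneg _) hL0
  have hH : ∀ v w, ‖(v + u v) - (w + u w)‖ ≤ 3 / 2 * ‖v - w‖ := by
    intro v w
    have h1 : ‖u v - u w‖ ≤ β * ‖v - w‖ :=
      Convex.norm_image_sub_le_of_norm_fderiv_le (s := univ) (fun x _ => hud x)
        (fun x _ => hu.b x) convex_univ (mem_univ w) (mem_univ v)
    have e1 : (v + u v) - (w + u w) = (v - w) + (u v - u w) := by abel
    rw [e1]
    have h2 := norm_add_le (v - w) (u v - u w)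
    have h3 := mul_le_mul_of_nonneg_right hβ (norm_nonneg (v - w))
    linarith
  refine ⟨?_, ?_⟩
  · intro v hv
    obtain ⟨h1, h2⟩ := hin v hv
    refine ⟨?_, ?_⟩
    · have h3 := Convex.norm_image_sub_le_of_norm_fderiv_le (s := ball c r) hΘd hb
        (convex_ball c r) h1 h2
      rw [add_sub_cancel_left] at h3
      exact h3.trans (mul_le_mul_of_nonneg_left (hu.s v) hL0)
    · rw [hfd v hv, mul_add]
      exact (norm_add_le _ _).trans (add_le_add (hA v hv) (hB v hv))
  · intro v w hv hw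
    obtain ⟨hv1, hv2⟩ := hin v hv
    obtain ⟨hw1, hw2⟩ := hin w hw
    have hn := norm_nonneg (v - w)
    rw [hfd v hv, hfd w hw, add_sub_add_comm]
    refine (norm_add_le _ _).trans (add_le_add (le_min ?_ ?_) (le_min ?_ ?_))
    · have h1 := norm_sub_le (fderiv ℝ Θ (v + u v) - fderiv ℝ Θ v)
        (fderiv ℝ Θ (w + u w) - fderiv ℝ Θ w)
      have h2 := hA v hv
      have h3 := hA w hw
      linarith
    · rw [sub_sub_sub_comm]
      have h1 := norm_sub_le (fderiv ℝ Θ (v + u v) - fderiv ℝ Θ (w + u w))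
        (fderiv ℝ Θ v - fderiv ℝ Θ w)
      have h2 := hlp _ hv2 _ hw2
      have h3 := hlp _ hv1 _ hw1
      have h4 := mul_le_mul_of_nonneg_left (hH v w) hL0
      have h5 : 0 ≤ L * ‖v - w‖ := mul_nonneg hL0 hn
      nlinarith
    · have h1 := norm_sub_le ((fderiv ℝ Θ (v + u v)).comp (fderiv ℝ u v))
        ((fderiv ℝ Θ (w + u w)).comp (fderiv ℝ u w))
      have h2 := hB v hv
      have h3 := hB w hw
      linarith
    · have e1 : (fderiv ℝ Θ (v + u v)).comp (fderiv ℝ u v) -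
          (fderiv ℝ Θ (w + u w)).comp (fderiv ℝ u w) =
          (fderiv ℝ Θ (v + u v) - fderiv ℝ Θ (w + u w)).comp (fderiv ℝ u v) +
          (fderiv ℝ Θ (w + u w)).comp (fderiv ℝ u v - fderiv ℝ u w) := by
        rw [ContinuousLinearMap.sub_comp, ContinuousLinearMap.comp_sub]
        abel
      rw [e1]
      have h1 : ‖(fderiv ℝ Θ (v + u v) - fderiv ℝ Θ (w + u w)).comp (fderiv ℝ u v)‖ ≤
          (L * (3 / 2 * ‖v - w‖)) * β := by
        refine (ContinuousLinearMap.opNorm_comp_le _ _).trans ?_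
        refine mul_le_mul ((hlp _ hv2 _ hw2).trans (mul_le_mul_of_nonneg_left (hH v w) hL0))
          (hu.b v) (norm_nonneg _) (by positivity)
      have h2 : ‖(fderiv ℝ Θ (w + u w)).comp (fderiv ℝ u v - fderiv ℝ u w)‖ ≤
          L * (γ * ‖v - w‖) := by
        refine (ContinuousLinearMap.opNorm_comp_le _ _).trans ?_
        exact mul_le_mul (hb _ hw2) (hu.g v w) (norm_nonneg _) hL0
      have h3 : 0 ≤ L * ‖v - w‖ * β := by positivity
      refine (norm_add_le _ _).trans ?_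
      nlinarith

end Pool.Agent.H20.CM
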