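import Pool.Agent.H88.CM.Targets

/-! HLVM: halving the time. -/

open Set Function Topology Metric Filter
open scoped Manifold
open Pool.Agent.H88.CL Pool.Agent.H88.CM

namespace Pool.Agent.H20.CM

theorem bp_mono {d : ℕ} {K : Set (E d)} {σ β γ σ' β' γ' : ℝ} {u : E d → E d}
    (h : Bp d K σ β γ u) (hσ : σ ≤ σ') (hβ : β ≤ β') (hγ : γ ≤ γ') : Bp d K σ' β' γ' u where
  c2 := h.c2
  sup := h.sup
  s := fun x => (h.s x).trans hσ
  b := fun x => (h.b x).trans hβ
  g := fun x y => (h.g x y).trans (mul_le_mul_of_nonneg_right hγ (norm_nonneg _))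

theorem bmp_zero {d : ℕ} {M : Type} [TopologicalSpace M] (κ : Ch d M) :
    bmp κ (fun _ => 0) = id := by
  funext y
  unfold bmp
  by_cases h : y ∈ κ.source
  · simp [h]
  · simp [h]

theorem pf_HLVM (h1 : T_OBCM) : T_HLVM := by
  intro d
  obtain ⟨C, hC, hO⟩ := h1 d
  refine ⟨C, hC, ?_⟩
  intro M _ f κ x ρ0 ε y m hball hρ hρ1 hε hε1 hys hyx hm hqs hD
  have hC0 : 0 < C := by linarith
  obtain ⟨q, hqdef⟩ : ∃ q : M, q = f^[m] y := ⟨_, rfl⟩
  rw [← hqdef] at hqs hD ⊢
  rcases eq_or_ne q y with hqy | hne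
  · left
    refine ⟨fun _ => 0, ⟨contDiff_const, fun v hv => absurd rfl hv, fun _ => ?_, fun x => ?_,
      fun x x' => ?_⟩, ?_⟩
    · rw [norm_zero]
      exact hε.le
    · have h3 : fderiv ℝ (fun _ : E d => (0 : E d)) x = 0 := by
        simp
      rw [h3, norm_zero]
      exact hε.le
    · have h3 : ∀ x, fderiv ℝ (fun _ : E d => (0 : E d)) x = 0 := by
        intro x
        simp
      rw [h3, h3, sub_zero, norm_zero]
      positivity
    · rw [bmp_zero, comp_id]
      rw [← hqy] at hqdef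
      exact hqdef.symm
  · have hne' : κ q ≠ κ y := fun h => hne (κ.injOn hqs hys h)
    have hDpos : 0 < ‖κ q - κ y‖ := norm_pos_iff.2 (sub_ne_zero.2 hne')
    set D := ‖κ q - κ y‖ with hDdef
    set R := Real.sqrt (C / ε * D) with hRdef
    have hpos : 0 < C / ε * D := by positivity
    have hR : 0 < R := Real.sqrt_pos.2 hpos
    have hR2 : R ^ 2 = C / ε * D := Real.sq_sqrt hpos.le
    have hR8 : R ≤ ρ0 / 8 := by
      rw [hRdef]
      exact Real.sqrt_le_iff.2 ⟨by positivity, hD⟩
    have hR4 : R ≤ 1 / 4 := by linarith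
    have hCD : C * D = ε * R ^ 2 := by
      rw [hR2]
      field_simp
    have hDR : D ≤ R := by nlinarith [mul_nonneg hR.le hR.le, mul_pos hR hR]
    have hqx : ‖κ q - x‖ ≤ ρ0 / 2 := by
      have e1 : κ q - x = (κ q - κ y) + (κ y - x) := by abel
      rw [e1]
      have := norm_add_le (κ q - κ y) (κ y - x)
      linarith
    by_cases hN : ∀ l, 1 ≤ l → l < m → f^[l] y ∈ κ.source → R < ‖κ (f^[l] y) - κ q‖
    · left
      obtain ⟨U, hU1, hU2⟩ := hO M f κ x ρ0 y q m R hball hys hqs hqx hm hqdef.symm hR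
        (by linarith) hN
      rw [← hDdef] at hU1
      refine ⟨U, bp_mono hU1 ?_ ?_ ?_, hU2⟩
      · have g1 : D ≤ C * D := by nlinarith
        have g2 : R ^ 2 ≤ 1 := by nlinarith
        have g3 : ε * R ^ 2 ≤ ε * 1 := mul_le_mul_of_nonneg_left g2 hε.le
        linarith
      · rw [div_le_iff₀ hR, hCD]
        have g2 : R ^ 2 ≤ R := by nlinarith
        exact mul_le_mul_of_nonneg_left g2 hε.le
      · rw [div_le_iff₀ (by positivity), hCD]
    · right
      push Not at hN
      obtain ⟨l, hl1, hlm, hls, hzR⟩ := hN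
      have hn := norm_add_le (κ (f^[l] y) - κ q) (κ q - κ y)
      have e2 : (κ (f^[l] y) - κ q) + (κ q - κ y) = κ (f^[l] y) - κ y := by abel
      rw [e2] at hn
      by_cases h2l : 2 * l ≤ m
      · refine ⟨y, l, hl1, h2l, hys, ?_, hls, ?_⟩
        · rw [sub_self, norm_zero]
          positivity
        · linarith
      · have e3 : f^[m - l] (f^[l] y) = q := by
          rw [← iterate_add_apply, hqdef]
          congr 2
          omega
        refine ⟨f^[l] y, m - l, by omega, by omega, hls, ?_, ?_, ?_⟩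
        · linarith
        · rw [e3]
          exact hqs
        · rw [e3, norm_sub_rev]
          linarith

end Pool.Agent.H20.CM
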